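import Pool.Agent.H79.MC.Targets

/-!
Evaluation of the current cut: the module BD2.
-/

set_option autoImplicit false

namespace Pool.Agent.H11.MC

open Pool.Agent.H79.MC Finset

theorem par_bound {a q n : ℕ} {A : ℕ → ℕ → ℕ} {W : ℕ} (h : Par a q n A W) :
    4 * ((n + 1) * (n + 1)) ≤ W := by
  refine le_trans ?_ h.hW
  rw [mul_assoc]
  exact Nat.mul_le_mul_right _ (by omega)

theorem base_agree {a q n : ℕ} {A : ℕ → ℕ → ℕ} {s s' : St} {R K : Finset ℕ}
    (h : Base a q n A s) (hs : Agree R K s s') (h0 : 0 ∉ R) (h1 : 1 ∉ R) (h2 : 2 ∉ R)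
    (h3 : 3 ∉ R) (k0 : 0 ∉ K) : Base a q n A s' where
  r0 := by rw [hs.1 0 h0]; exact h.r0
  r1 := by rw [hs.1 1 h1]; exact h.r1
  r2 := by rw [hs.1 2 h2]; exact h.r2
  r3 := by rw [hs.1 3 h3]; exact h.r3
  adj := by
    intro u hu v hv
    rw [hs.2 0 k0]
    exact h.adj u hu v hv

theorem dec_agree {a q n j τ g : ℕ} {s s' : St} {R K : Finset ℕ}
    (h : Dec a q n j τ g s) (hs : Agree R K s s') (h4 : 4 ∉ R) (h5 : 5 ∉ R)
    (k4 : 4 ∉ K) (k5 : 5 ∉ K) (k6 : 6 ∉ K) (k7 : 7 ∉ K) : Dec a q n j τ g s' where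
  r4 := by rw [hs.1 4 h4]; exact h.r4
  r5 := by rw [hs.1 5 h5]; exact h.r5
  a4 := by rw [hs.2 4 k4]; exact h.a4
  a5 := by rw [hs.2 5 k5]; exact h.a5
  a6 := by rw [hs.2 6 k6]; exact h.a6
  a7 := by rw [hs.2 7 k7]; exact h.a7

theorem bits_le (X i : ℕ) : bits X i ≤ 1 := by
  unfold bits
  omega

theorem pf_bd2 (hSUM : T_SUM) (hEVL : T_EVL) (hBNS : T_BNS) (hCPY : T_CPY) (hROT : T_ROT) :
    T_BD2 := by
  intro a q n A W j τ g X c s hP hB hD hj hI hO h14
  have hW := par_bound hP
  have hv := (hBNS a q n A j g (bits X) hP.hA).1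
  have hnn : (n + 1) * (n + 1) = n * n + 2 * n + 1 := by ring
  obtain ⟨t1, s1, hr1, ht1, ha1, h10⟩ := hSUM W valE s n
    (fun i i' => A ((i + j) % n) ((i' + j) % n) * if bits X i = bits X i' then 1 else 0)
    hB.r0 (by omega)
    (by
      intro s' i i' hs' hi hi' h8 h9
      have hB' : Base a q n A s' := base_agree hB hs' (by decide) (by decide) (by decide)
        (by decide) (by decide)
      have hD' : Dec a q n j τ g s' := dec_agree hD hs' (by decide) (by decide) (by decide)
        (by decide) (by decide) (by decide)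
      have h := (hEVL a q n A W j τ g s' (bits X) hP hB' hD' hj
        (fun i hi => by rw [hs'.2 2 (by decide)]; exact hI.a2 i hi) (fun i _ => bits_le X i)
        i hi i' hi' h8 h9).1
      exact h)
    (by
      have : (∑ i ∈ Finset.range n, ∑ i' ∈ Finset.range n,
        (fun i i' => A ((i + j) % n) ((i' + j) % n) * if bits X i = bits X i' then 1 else 0) i i')
        = valF n A j (bits X) := rfl
      rw [this]
      omega)
  have h10' : s1.r 10 = valF n A j (bits X) := h10
  have h14' : s1.r 14 = s.r 14 := ha1.1 14 (by decide)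
  by_cases hc : s1.r 14 - s1.r 10 ≠ 0
  · set s2 : St := s1.setr 14 (s1.r 10) with hs2
    have e2 : ∀ i, i ≠ 14 → s2.r i = s1.r i := by
      intro i hi
      rw [hs2]
      unfold St.setr
      simp only
      rw [Function.update_of_ne hi]
    have e214 : s2.r 14 = s1.r 10 := by
      rw [hs2]
      unfold St.setr
      simp only
      rw [Function.update_self]
    have a2 : s2.a = s1.a := rfl
    obtain ⟨t3, s3, hr3, ht3, ha3, h3⟩ := hCPY W s2 n j
      (by rw [e2 0 (by decide), ha1.1 0 (by decide)]; exact hB.r0)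
      (by rw [e2 4 (by decide), ha1.1 4 (by decide)]; exact hD.r4) hj (by omega)
      (by
        intro i hi
        rw [a2, ha1.2 2 (by simp), hI.a2 i hi]
        exact bits_le X i)
    have hcp : ∀ i < n, s3.a 1 ((i + j) % n) = bits X i := by
      intro i hi
      rw [h3 i hi, a2, ha1.2 2 (by simp), hI.a2 i hi]
    have hrot := hROT n A j (bits X) (s3.a 1) hj hcp
    have h314 : s3.r 14 = valF n A j (bits X) := by
      rw [ha3.1 14 (by decide), e214, h10']
    refine ⟨t1 + (1 + t3 + 1), s3, ?_, ?_, ?_, ?_, ?_⟩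
    · refine Run.seq hr1 (Run.ite_true ?_ hc (Run.seq (Run.set 14 (.reg 10) s1 ?_) hr3))
      · change max (s1.r 14) (s1.r 10) ≤ W
        rw [h14', h10']
        apply max_le <;> omega
      · change s1.r 10 ≤ W
        rw [h10']
        omega
    · omega
    · constructor
      · intro i hi
        have hi' : i ≠ 8 ∧ i ≠ 9 ∧ i ≠ 10 ∧ i ≠ 14 := by
          simp only [Finset.mem_insert, Finset.mem_singleton, not_or] at hi
          exact hi
        rw [ha3.1 i (by simp [hi'.1]), e2 i hi'.2.2.2,
          ha1.1 i (by simp [hi'.1, hi'.2.1, hi'.2.2.1])]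
      · intro k hk
        rw [ha3.2 k hk, a2, ha1.2 k (by simp)]
    · right
      refine ⟨?_, ?_⟩
      · intro v hv'
        have h := hcp ((v + n - j) % n) (Nat.mod_lt _ (by omega))
        have e : ((v + n - j) % n + j) % n = v := by
          rw [Nat.mod_add_mod]
          have : v + n - j + j = v + n := by omega
          rw [this, Nat.add_mod_right, Nat.mod_eq_of_lt hv']
        rw [e] at h
        rw [h]
        exact bits_le X _
      · rw [h314, hrot]
    · rw [h314]
      rw [h14', h10'] at hc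
      rw [min_eq_right (by omega)]
  · refine ⟨t1 + (1 + 1), s1, ?_, ?_, ?_, ?_, ?_⟩
    · refine Run.seq hr1 (Run.ite_false ?_ ?_ (Run.skip s1))
      · change max (s1.r 14) (s1.r 10) ≤ W
        rw [h14', h10']
        apply max_le <;> omega
      · exact not_not.1 hc
    · omega
    · constructor
      · intro i hi
        have hi' : i ≠ 8 ∧ i ≠ 9 ∧ i ≠ 10 ∧ i ≠ 14 := by
          simp only [Finset.mem_insert, Finset.mem_singleton, not_or] at hi
          exact hi
        rw [ha1.1 i (by simp [hi'.1, hi'.2.1, hi'.2.2.1])]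
      · intro k hk
        rw [ha1.2 k (by simp)]
    · rcases hO with h | ⟨h, h'⟩
      · left
        rw [h14', h]
      · right
        rw [h14', ha1.2 1 (by simp)]
        exact ⟨h, h'⟩
    · rw [h14', h10'] at hc
      rw [h14', min_eq_left (by omega)]

end Pool.Agent.H11.MC
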