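import Pool.Agent.H79.MC.Targets2

/-!
Counting of ordered pairs of adjacent vertices: the modules LNK, SGN, INP.
-/

set_option autoImplicit false

namespace Pool.Agent.H11.MC

open Pool.Agent.H79.MC Finset

/-- ordered pairs of adjacent vertices -/
theorem pairs_card {n : ℕ} (H : SimpleGraph (Fin n)) [DecidableRel H.Adj] :
    (∑ u, ∑ v, if H.Adj u v then 1 else 0) = 2 * H.edgeSet.ncard := by
  classical
  have h := H.sum_degrees_eq_twice_card_edges
  have h2 : H.edgeSet.ncard = H.edgeFinset.card := by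
    rw [← SimpleGraph.coe_edgeFinset, Set.ncard_coe_finset]
  rw [h2, ← h]
  refine Finset.sum_congr rfl fun u _ => ?_
  rw [← SimpleGraph.card_neighborFinset_eq_degree, Finset.card_eq_sum_ones, Finset.sum_ite,
    Finset.sum_const_zero, add_zero]
  refine Finset.sum_congr ?_ fun _ _ => rfl
  ext v
  simp

/-- the graph of the edges of a cut -/
def cutG {n : ℕ} (G : SimpleGraph (Fin n)) (X : Set (Fin n)) : SimpleGraph (Fin n) where
  Adj u v := G.Adj u v ∧ ¬(u ∈ X ↔ v ∈ X)
  symm := ⟨fun u v h => ⟨h.1.symm, fun h' => h.2 h'.symm⟩⟩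
  loopless := ⟨fun u h => h.2 Iff.rfl⟩

theorem cutG_edges {n : ℕ} (G : SimpleGraph (Fin n)) (X : Set (Fin n)) :
    (cutG G X).edgeSet.ncard = cutSize G X := by
  unfold cutSize
  congr 1
  ext e
  induction e using Sym2.ind with
  | _ u v =>
    simp only [SimpleGraph.mem_edgeSet, Set.mem_setOf_eq, cutG]
    constructor
    · rintro ⟨h, h'⟩
      refine ⟨h, ?_⟩
      by_cases hu : u ∈ X
      · have hv : v ∉ X := fun hv => h' ⟨fun _ => hv, fun _ => hu⟩
        exact ⟨u, hu, v, hv, rfl⟩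
      · have hv : v ∈ X := by
          by_contra hv
          exact h' ⟨fun h => absurd h hu, fun h => absurd h hv⟩
        exact ⟨v, hv, u, hu, Sym2.eq_swap⟩
    · rintro ⟨h, a, ha, b, hb, he⟩
      refine ⟨h, ?_⟩
      rw [Sym2.eq_iff] at he
      rcases he with ⟨rfl, rfl⟩ | ⟨rfl, rfl⟩
      · exact fun h' => hb (h'.1 ha)
      · exact fun h' => hb (h'.2 ha)

theorem cut_pairs {n : ℕ} (G : SimpleGraph (Fin n)) (X : Set (Fin n)) [DecidableRel G.Adj]
    [∀ v, Decidable (v ∈ X)] :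
    (∑ u, ∑ v, if G.Adj u v ∧ ¬(u ∈ X ↔ v ∈ X) then 1 else 0) = 2 * cutSize G X := by
  classical
  rw [← cutG_edges, ← pairs_card]
  refine Finset.sum_congr rfl fun u _ => Finset.sum_congr rfl fun v _ => ?_
  simp only [cutG]
  congr

theorem pf_lnk : T_LNK := by
  classical
  intro n G x hx
  unfold edges
  rw [← pairs_card G, ← cut_pairs G {v : Fin n | x v ≠ 0}]
  unfold valF
  rw [Finset.sum_range, ← Finset.sum_add_distrib]
  refine Finset.sum_congr rfl fun u _ => ?_
  rw [Finset.sum_range, ← Finset.sum_add_distrib]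
  refine Finset.sum_congr rfl fun v _ => ?_
  rw [add_zero, add_zero, Nat.mod_eq_of_lt u.2, Nat.mod_eq_of_lt v.2]
  have hu := hx u u.2
  have hv := hx v v.2
  have hadj : adjN G u v = if G.Adj u v then 1 else 0 := by
    unfold adjN
    by_cases h : G.Adj u v
    · rw [if_pos ⟨u.2, v.2, h⟩, if_pos h]
    · rw [if_neg (fun ⟨_, _, h'⟩ => h h'), if_neg h]
  rw [hadj]
  by_cases h : G.Adj u v
  · simp only [h, if_true, one_mul, true_and, Set.mem_setOf_eq]
    have h01 : ∀ a b : ℕ, a ≤ 1 → b ≤ 1 →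
        ((if a = b then 1 else 0) + if ¬(a ≠ 0 ↔ b ≠ 0) then 1 else 0) = 1 := by
      intro a b ha hb
      have ha' : a = 0 ∨ a = 1 := by omega
      have hb' : b = 0 ∨ b = 1 := by omega
      rcases ha' with rfl | rfl <;> rcases hb' with rfl | rfl <;> simp
    exact h01 _ _ hu hv
  · simp [h]

theorem pf_sgn : T_SGN := by
  classical
  intro n G X
  have h1 : (2 * (edges G : ℝ)) = ((2 * G.edgeSet.ncard : ℕ) : ℝ) := by
    unfold edges
    push_cast
    ring
  have h2 : (4 * (cutSize G X : ℝ)) = 2 * ((2 * cutSize G X : ℕ) : ℝ) := by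
    push_cast
    ring
  rw [h1, h2, ← pairs_card G, ← cut_pairs G X]
  push_cast
  rw [Finset.mul_sum, ← Finset.sum_sub_distrib]
  unfold phi
  refine Finset.sum_congr rfl fun u _ => ?_
  rw [Finset.mul_sum, ← Finset.sum_sub_distrib]
  refine Finset.sum_congr rfl fun v _ => ?_
  unfold sgv
  by_cases h : G.Adj u v <;> by_cases hu : u ∈ X <;> by_cases hv : v ∈ X <;>
    simp [h, hu, hv] <;> norm_num

theorem pf_inp : T_INP := by
  classical
  intro n G
  refine ⟨by simp [input], ?_⟩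
  intro u hu v hv
  unfold input adjN
  simp only
  congr 1
  rw [eq_iff_iff]
  constructor
  · rintro ⟨_, a, b, h, he⟩
    have hn : 0 < n := lt_of_le_of_lt (Nat.zero_le _) hu
    have h1 : u = a := by
      have h3 : (u * n + v) / n = (a * n + b) / n := by rw [he]
      rw [mul_comm u n, mul_comm (a : ℕ) n, Nat.mul_add_div hn, Nat.mul_add_div hn,
        Nat.div_eq_of_lt hv, Nat.div_eq_of_lt b.2] at h3
      simpa using h3
    have h2 : v = b := by
      rw [h1] at he
      exact Nat.add_left_cancel he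
    refine ⟨hu, hv, ?_⟩
    have e1 : (⟨u, hu⟩ : Fin n) = a := Fin.ext h1
    have e2 : (⟨v, hv⟩ : Fin n) = b := Fin.ext h2
    rw [e1, e2]
    exact h
  · rintro ⟨hu', hv', h⟩
    exact ⟨trivial, ⟨u, hu'⟩, ⟨v, hv'⟩, h, rfl⟩

end Pool.Agent.H11.MC
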