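import Pool.Agent.H79.MC.Targets2

/-!
Fractional points are not better than cuts: the module MUL.
-/

set_option autoImplicit false

namespace Pool.Agent.H11.MC

open Pool.Agent.H79.MC Finset

theorem phi_affine {n : ℕ} (G : SimpleGraph (Fin n)) (z : Fin n → ℝ) (v : Fin n) :
    phi G z = (1 + z v) / 2 * phi G (Function.update z v 1) +
      (1 - z v) / 2 * phi G (Function.update z v (-1)) := by
  classical
  unfold phi
  rw [Finset.mul_sum, Finset.mul_sum, ← Finset.sum_add_distrib]
  refine Finset.sum_congr rfl fun u _ => ?_
  rw [Finset.mul_sum, Finset.mul_sum, ← Finset.sum_add_distrib]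
  refine Finset.sum_congr rfl fun w _ => ?_
  by_cases h : G.Adj u w
  · simp only [h, if_true]
    have huw : u ≠ w := h.ne
    by_cases hu : u = v
    · subst hu
      rw [Function.update_self, Function.update_self, Function.update_of_ne huw.symm,
        Function.update_of_ne huw.symm]
      ring
    · by_cases hw : w = v
      · subst hw
        rw [Function.update_self, Function.update_self, Function.update_of_ne hu,
          Function.update_of_ne hu]
        ring
      · rw [Function.update_of_ne hu, Function.update_of_ne hu, Function.update_of_ne hw,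
          Function.update_of_ne hw]
        ring
  · simp [h]

theorem phi_step {n : ℕ} (G : SimpleGraph (Fin n)) (z : Fin n → ℝ) (v : Fin n)
    (hz : |z v| ≤ 1) : ∃ s : ℝ, (s = 1 ∨ s = -1) ∧ phi G (Function.update z v s) ≤ phi G z := by
  have h := phi_affine G z v
  have h1 := (abs_le.1 hz).1
  have h2 := (abs_le.1 hz).2
  rcases le_total (phi G (Function.update z v 1)) (phi G (Function.update z v (-1))) with h3 | h3
  · refine ⟨1, Or.inl rfl, ?_⟩
    rw [h]
    nlinarith
  · refine ⟨-1, Or.inr rfl, ?_⟩
    rw [h]
    nlinarith

theorem mul_aux {n : ℕ} (G : SimpleGraph (Fin n)) (c : ℝ)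
    (hc : ∀ X : Set (Fin n), c ≤ phi G (sgv X)) : ∀ (k : ℕ) (z : Fin n → ℝ), (∀ v, |z v| ≤ 1) →
    (Finset.univ.filter fun v => z v ≠ 1 ∧ z v ≠ -1).card = k → c ≤ phi G z := by
  classical
  intro k
  induction k with
  | zero =>
    intro z hz hk
    rw [Finset.card_eq_zero] at hk
    have h : z = sgv {v | z v = 1} := by
      funext v
      have hv : v ∉ (Finset.univ.filter fun v => z v ≠ 1 ∧ z v ≠ -1) := by
        rw [hk]
        simp
      unfold sgv
      by_cases h1 : z v = 1
      · have : v ∈ {v | z v = 1} := h1
        rw [if_pos this]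
        exact h1
      · have : v ∉ {v | z v = 1} := h1
        rw [if_neg this]
        by_contra h2
        apply hv
        rw [Finset.mem_filter]
        exact ⟨Finset.mem_univ _, h1, h2⟩
    rw [h]
    exact hc _
  | succ k ih =>
    intro z hz hk
    have hne : (Finset.univ.filter fun v => z v ≠ 1 ∧ z v ≠ -1).Nonempty := by
      rw [← Finset.card_pos, hk]
      exact Nat.succ_pos k
    obtain ⟨v, hv⟩ := hne
    obtain ⟨s, hs, hle⟩ := phi_step G z v (hz v)
    refine le_trans ?_ hle
    apply ih
    · intro w
      by_cases hw : w = v
      · subst hw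
        rw [Function.update_self]
        rcases hs with rfl | rfl <;> simp
      · rw [Function.update_of_ne hw]
        exact hz w
    · have : (Finset.univ.filter fun w => Function.update z v s w ≠ 1 ∧
          Function.update z v s w ≠ -1) =
          (Finset.univ.filter fun w => z w ≠ 1 ∧ z w ≠ -1).erase v := by
        ext w
        rw [Finset.mem_erase, Finset.mem_filter, Finset.mem_filter]
        by_cases hw : w = v
        · subst hw
          rw [Function.update_self]
          rcases hs with rfl | rfl <;> simp
        · rw [Function.update_of_ne hw]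
          simp [hw]
      rw [this, Finset.card_erase_of_mem hv, hk]
      rfl

theorem pf_mul (hSGN : T_SGN) (hMCB : T_MCB) : T_MUL := by
  intro n G z hz
  refine mul_aux G _ (fun X => ?_) _ z hz rfl
  rw [hSGN n G X]
  have h := (hMCB n G).1 X
  have h' : (cutSize G X : ℝ) ≤ maxCut G := by exact_mod_cast h
  linarith

end Pool.Agent.H11.MC
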